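import Pool.Agent.helper62.DP7.Spec

/-!
# Row CO2: a vertex of degree two near another one
-/

set_option autoImplicit false

namespace Pool.Agent.helper62.DP7

open Finset

theorem CO2_pair {V : Type} [DecidableEq V] {S : Finset V} {u : V} (h : S.card = 2) (hu : u ∈ S) :
    ∃ w, u ≠ w ∧ S = {u, w} := by
  obtain ⟨x, y, hxy, hS⟩ := Finset.card_eq_two.1 h
  rw [hS] at hu
  rcases Finset.mem_insert.1 hu with h1 | h1
  · subst h1
    exact ⟨y, hxy, hS⟩
  · rw [Finset.mem_singleton] at h1
    subst h1
    exact ⟨x, hxy.symm, by rw [hS, Finset.pair_comm]⟩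

theorem CO2 (hUNC : UNC_stmt) (hGRD : GRD_stmt) (hOUT : OUT_stmt) : CO2_stmt := by
  intro V W _ G R L hL A v u h3 hvA hv2 huv hcase hcol
  obtain ⟨w, huw, hN⟩ := CO2_pair hv2 huv
  have hu' := mem_nb.1 huv
  have hwv : w ∈ nb G A v := by rw [hN]; simp
  have hw' := mem_nb.1 hwv
  have hvu : v ≠ u := hu'.2.ne
  have hvw : v ≠ w := hw'.2.ne
  have hvNu : v ∈ nb G A u := mem_nb.2 ⟨hvA, hu'.2.symm⟩
  have hvNw : v ∈ nb G A w := mem_nb.2 ⟨hvA, hw'.2.symm⟩
  -- the start
  have c0 : Col G R L A (A \ ({v, u, w} : Finset V)) := by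
    refine hUNC V W G R L A {v} {v, u, w} ?_ ?_ hcol
    · intro x hx
      rw [Finset.mem_singleton] at hx
      subst hx
      exact Finset.mem_insert_self _ _
    · intro s hs
      rw [Finset.mem_singleton] at hs
      subst hs
      rw [hN]
      exact Finset.subset_insert _ _
  set B0 : Finset V := A \ ({v, u, w} : Finset V) with hB0
  have hB0A : B0 ⊆ A := Finset.sdiff_subset
  have hvB0 : v ∉ B0 := by rw [hB0]; simp
  have huB0 : u ∉ B0 := by rw [hB0]; simp
  -- insert w
  have q1 : (qn G A B0 w).card ≤ 6 := by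
    have h := (hOUT V G A B0 {u, v} w hw'.1 hB0A (by
      intro x hx
      rcases Finset.mem_insert.1 hx with h | h
      · rw [h]; exact hu'.1
      · rw [Finset.mem_singleton.1 h]; exact hvA) (by
      rw [Finset.disjoint_left]
      intro x hx
      rcases Finset.mem_insert.1 hx with h | h
      · rw [h]; exact huB0
      · rw [Finset.mem_singleton.1 h]; exact hvB0) (by
      intro x hx
      rcases Finset.mem_insert.1 hx with h | h
      · rw [h]; exact ⟨huw.symm, Or.inr ⟨v, hvA, hw'.2.symm, hu'.2⟩⟩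
      · rw [Finset.mem_singleton.1 h]; exact ⟨hvw.symm, Or.inl hw'.2.symm⟩)).2.2.1 h3 ⟨v, hvNw, hv2.le⟩
    rw [Finset.card_pair hvu.symm] at h
    have := h3 w hw'.1
    omega
  have c1 := hGRD V W G R L hL A B0 w c0 q1
  -- insert u
  have hB1A : insert w B0 ⊆ A := Finset.insert_subset hw'.1 hB0A
  have hvB1 : v ∉ insert w B0 := by
    intro h
    rcases Finset.mem_insert.1 h with h | h
    · exact hvw h
    · exact hvB0 h
  have q2 : (qn G A (insert w B0) u).card ≤ 6 := by
    have h := hOUT V G A (insert w B0) {v} u hu'.1 hB1A (by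
      intro x hx
      rw [Finset.mem_singleton.1 hx]; exact hvA) (by
      rw [Finset.disjoint_left]
      intro x hx
      rw [Finset.mem_singleton.1 hx]; exact hvB1) (by
      intro x hx
      rw [Finset.mem_singleton.1 hx]; exact ⟨hvu.symm, Or.inl hu'.2.symm⟩)
    obtain ⟨_, _, h2, _, h5⟩ := h
    have h6 := h3 u hu'.1
    rcases hcase with h7 | ⟨v', hv', hne, h7⟩
    · have h8 := h2 h3 ⟨v, hvNu, hv2.le⟩
      rw [Finset.card_singleton] at h8
      omega
    · have h8 := h5 h3 ⟨v, hvNu, v', hv', hne.symm, hv2.le, h7⟩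
      rw [Finset.card_singleton] at h8
      omega
  have c2 := hGRD V W G R L hL A (insert w B0) u c1 q2
  -- insert v
  have hB2A : insert u (insert w B0) ⊆ A := Finset.insert_subset hu'.1 hB1A
  have q3 : (qn G A (insert u (insert w B0)) v).card ≤ 6 := by
    have h := (hOUT V G A (insert u (insert w B0)) ∅ v hvA hB2A (by simp) (by simp) (by simp)).2.1 h3
    rw [hv2, Finset.card_empty] at h
    omega
  have c3 := hGRD V W G R L hL A (insert u (insert w B0)) v c2 q3
  have hE : insert v (insert u (insert w B0)) = A := by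
    ext x
    rw [hB0]
    simp only [Finset.mem_insert, Finset.mem_sdiff, Finset.mem_singleton, not_or]
    constructor
    · rintro (h | h | h | h)
      · rw [h]; exact hvA
      · rw [h]; exact hu'.1
      · rw [h]; exact hw'.1
      · exact h.1
    · intro h
      by_cases h1 : x = v
      · exact Or.inl h1
      by_cases h2 : x = u
      · exact Or.inr (Or.inl h2)
      by_cases h4 : x = w
      · exact Or.inr (Or.inr (Or.inl h4))
      · exact Or.inr (Or.inr (Or.inr ⟨h, h1, h2, h4⟩))
  rw [hE] at c3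
  exact c3

end Pool.Agent.helper62.DP7
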